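import Pool.Agent.RZW.Stmts

/-!
# RZW, module ONC: completeness of the system of a wavelet set
-/

set_option autoImplicit false

open MeasureTheory Set Filter Topology
open scoped ComplexConjugate

namespace Pool.Agent.RZW

namespace ONC

theorem qmp {c : ℝ} (hc : c ≠ 0) :
    Measure.QuasiMeasurePreserving (fun ξ : ℝ => c * ξ) volume volume := by
  refine ⟨measurable_const_mul c, ?_⟩
  have h1 : Measure.map (fun ξ : ℝ => c * ξ) volume = ENNReal.ofReal |c⁻¹| • volume :=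
    Real.map_volume_mul_left hc
  rw [h1]
  exact Measure.smul_absolutelyContinuous

theorem memLp_comp {w : ℝ → ℂ} (hw : MemLp w 2 volume) {c : ℝ} (hc : c ≠ 0) :
    MemLp (fun η => w (c * η)) 2 volume := by
  have h1 : Measure.map (fun ξ : ℝ => c * ξ) volume = ENNReal.ofReal |c⁻¹| • volume :=
    Real.map_volume_mul_left hc
  have h2 : MemLp w 2 (Measure.map (fun ξ : ℝ => c * ξ) volume) := by
    rw [h1]
    exact hw.smul_measure ENNReal.ofReal_ne_top
  exact h2.comp_of_map (measurable_const_mul c).aemeasurable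

end ONC

open ONC in
theorem stmt_ONC (h1 : Stmt_ONP) : Stmt_ONC := by
  intro W w hW hw h
  have key : ∀ j : ℤ, ∀ᵐ ξ : ℝ, (2 : ℝ) ^ (-j) * ξ ∈ W → w ξ = 0 := by
    intro j
    have h2 : (2 : ℝ) ^ j ≠ 0 := zpow_ne_zero _ (by norm_num)
    have h2' : (2 : ℝ) ^ (-j) ≠ 0 := zpow_ne_zero _ (by norm_num)
    have hmul : (2 : ℝ) ^ j * (2 : ℝ) ^ (-j) = 1 := by
      rw [← zpow_add₀ (by norm_num : (2 : ℝ) ≠ 0), add_neg_cancel, zpow_zero]
    have h3 : ∀ k : ℤ, ∫ η in W, conj (ch k η) * w ((2 : ℝ) ^ j * η) = 0 := by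
      intro k
      have h4 := h (j, k)
      set g : ℝ → ℂ := fun η => W.indicator (fun η => conj (ch k η) * w ((2 : ℝ) ^ j * η)) η
        with hg
      have e1 : ∀ ξ : ℝ, conj (fr j k (W.indicator fun _ => (1 : ℂ)) ξ) * w ξ =
          (((2 : ℝ) ^ (-(j : ℝ) / 2) : ℝ) : ℂ) * g ((2 : ℝ) ^ (-j) * ξ) := by
        intro ξ
        rw [hg]
        unfold fr
        simp only [map_mul, Complex.conj_ofReal]
        by_cases hx : (2 : ℝ) ^ (-j) * ξ ∈ W
        · rw [Set.indicator_of_mem hx, Set.indicator_of_mem hx, map_one, mul_one, ← mul_assoc,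
            ← mul_assoc, hmul, one_mul, mul_assoc]
        · rw [Set.indicator_of_notMem hx, Set.indicator_of_notMem hx]
          simp
      simp only [e1] at h4
      rw [integral_const_mul] at h4
      have e2 : ((((2 : ℝ) ^ (-(j : ℝ) / 2) : ℝ) : ℂ)) ≠ 0 := by
        have : (0 : ℝ) < (2 : ℝ) ^ (-(j : ℝ) / 2) := Real.rpow_pos_of_pos (by norm_num) _
        exact_mod_cast this.ne'
      have h5 := (mul_eq_zero.1 h4).resolve_left e2
      rw [Measure.integral_comp_mul_left g ((2 : ℝ) ^ (-j))] at h5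
      have h6 : ∫ η, g η = 0 := by
        rcases smul_eq_zero.1 h5 with h7 | h7
        · exact absurd h7 (abs_ne_zero.2 (inv_ne_zero h2'))
        · exact h7
      rw [hg] at h6
      have h8 : ∫ η, W.indicator (fun η => conj (ch k η) * w ((2 : ℝ) ^ j * η)) η =
          ∫ η in W, conj (ch k η) * w ((2 : ℝ) ^ j * η) := integral_indicator hW.1
      rw [← h8]
      exact h6
    have h4 := h1 W (fun η => w ((2 : ℝ) ^ j * η)) hW (memLp_comp hw h2) h3
    rw [ae_restrict_iff' hW.1] at h4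
    have h5 := (qmp h2').ae h4
    filter_upwards [h5] with ξ hξ hm
    have h6 := hξ hm
    rwa [← mul_assoc, hmul, one_mul] at h6
  have hall : ∀ᵐ ξ : ℝ, ∀ j : ℤ, (2 : ℝ) ^ (-j) * ξ ∈ W → w ξ = 0 := ae_all_iff.2 key
  have h0 : ∀ᵐ ξ : ℝ, ξ ≠ 0 := by
    rw [ae_iff]
    simp
  filter_upwards [hall, h0] with ξ hξ hξ0
  obtain ⟨j, hj, -⟩ := hW.2.2 ξ hξ0
  exact hξ j hj

end Pool.Agent.RZW
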