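import Pool.Agent.RZW.Stmts

/-!
# RZW, ONO: the affine system of a wavelet set is orthonormal
-/

set_option autoImplicit false

open MeasureTheory Set Filter Topology
open scoped ComplexConjugate

namespace Pool.Agent.RZW

namespace ONO

/-- a wavelet set is a fundamental domain for the integer translations -/
theorem fund {W : Set ℝ} (hW : WSet W) :
    IsAddFundamentalDomain (AddSubgroup.zmultiples (1 : ℝ)) W volume := by
  refine IsAddFundamentalDomain.mk' hW.1.nullMeasurableSet fun x => ?_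
  have hb : Function.Bijective (codRestrict (fun n : ℤ => n • (1 : ℝ))
      (AddSubgroup.zmultiples (1 : ℝ)) fun n => ⟨n, rfl⟩) :=
    (Equiv.ofInjective (fun n : ℤ => n • (1 : ℝ))
      (zsmul_left_strictMono one_pos).injective).bijective
  refine hb.existsUnique_iff.2 ?_
  have h := hW.2.1 x
  have e : ∀ n : ℤ, (codRestrict (fun n : ℤ => n • (1 : ℝ))
      (AddSubgroup.zmultiples (1 : ℝ)) (fun n => ⟨n, rfl⟩) n) +ᵥ x = x + (n : ℝ) := by
    intro n
    show n • (1 : ℝ) + x = x + n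
    simp [add_comm]
  simp only [e]
  exact h

theorem fundI : IsAddFundamentalDomain (AddSubgroup.zmultiples (1 : ℝ)) (Ioc (0 : ℝ) 1) volume := by
  have := isAddFundamentalDomain_Ioc one_pos (0 : ℝ) volume
  rwa [zero_add] at this

theorem vol {W : Set ℝ} (hW : WSet W) : volume W = 1 := by
  rw [(fund hW).measure_eq fundI]
  simp

theorem ch_add_int (k : ℤ) (η : ℝ) (n : ℤ) : ch k ((n : ℝ) + η) = ch k η := by
  unfold ch
  rw [show -(2 * (Real.pi : ℂ) * Complex.I * (k : ℂ) * (((n : ℝ) + η : ℝ) : ℂ)) =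
      -(2 * (Real.pi : ℂ) * Complex.I * (k : ℂ) * (η : ℂ)) +
        ((-(k * n) : ℤ) : ℂ) * (2 * (Real.pi : ℂ) * Complex.I) by push_cast; ring,
    Complex.exp_add, Complex.exp_int_mul_two_pi_mul_I, mul_one]

theorem conj_ch_mul (k l : ℤ) (η : ℝ) : conj (ch k η) * ch l η = ch (l - k) η := by
  unfold ch
  rw [← Complex.exp_conj, ← Complex.exp_add]
  congr 1
  simp only [map_neg, map_mul, Complex.conj_ofReal, Complex.conj_I, Complex.conj_ofNat,
    map_intCast]
  push_cast
  ring

theorem int_ch (m : ℤ) : ∫ η in Ioc (0 : ℝ) 1, ch m η = if m = 0 then 1 else 0 := by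
  split_ifs with h
  · subst h
    have : ∀ η, ch 0 η = 1 := fun η => by simp [ch]
    simp [this]
  · have hc : -(2 * (Real.pi : ℂ) * Complex.I * (m : ℂ)) ≠ 0 := by
      rw [neg_ne_zero]
      refine mul_ne_zero (mul_ne_zero (mul_ne_zero two_ne_zero ?_) Complex.I_ne_zero) ?_
      · exact_mod_cast Real.pi_ne_zero
      · exact_mod_cast h
    have h1 : ∀ η : ℝ, ch m η = Complex.exp (-(2 * (Real.pi : ℂ) * Complex.I * (m : ℂ)) * η) :=
      fun η => by unfold ch; congr 1; ring
    simp only [h1]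
    rw [← intervalIntegral.integral_of_le zero_le_one, integral_exp_mul_complex hc]
    have h2 : Complex.exp (-(2 * (Real.pi : ℂ) * Complex.I * (m : ℂ)) * ((1 : ℝ) : ℂ)) = 1 := by
      rw [show -(2 * (Real.pi : ℂ) * Complex.I * (m : ℂ)) * ((1 : ℝ) : ℂ) =
        ((-m : ℤ) : ℂ) * (2 * (Real.pi : ℂ) * Complex.I) by push_cast; ring,
        Complex.exp_int_mul_two_pi_mul_I]
    rw [h2]
    simp

theorem int_W {W : Set ℝ} (hW : WSet W) (k l : ℤ) :
    ∫ η in W, conj (ch k η) * ch l η = if k = l then 1 else 0 := by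
  have h1 : ∫ η in W, ch (l - k) η = ∫ η in Ioc (0 : ℝ) 1, ch (l - k) η := by
    apply (fund hW).setIntegral_eq fundI
    rintro ⟨g, n, rfl⟩ x
    show ch (l - k) (n • (1 : ℝ) + x) = ch (l - k) x
    rw [← ch_add_int (l - k) x n]
    simp
  simp only [conj_ch_mul]
  rw [h1, int_ch]
  by_cases h : k = l
  · subst h; simp
  · rw [if_neg h, if_neg (fun h' => h (sub_eq_zero.1 h').symm)]

end ONO

open ONO

theorem stmt_ONO : Stmt_ONO := by
  intro W hW
  refine ⟨vol hW, ?_⟩
  rintro ⟨j, k⟩ ⟨j', k'⟩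
  simp only
  by_cases hj : j = j'
  · subst hj
    have hpos : (0 : ℝ) < (2 : ℝ) ^ (-j) := zpow_pos two_pos _
    have h1 : ∀ ξ : ℝ, conj (fr j k (W.indicator fun _ => (1 : ℂ)) ξ) *
        fr j k' (W.indicator fun _ => (1 : ℂ)) ξ =
        ((2 : ℝ) ^ (-j) : ℝ) • (fun η => W.indicator (fun η => conj (ch k η) * ch k' η) η)
          ((2 : ℝ) ^ (-j) * ξ) := by
      intro ξ
      have hs : (((2 : ℝ) ^ (-(j : ℝ) / 2) : ℝ) : ℂ) * (((2 : ℝ) ^ (-(j : ℝ) / 2) : ℝ) : ℂ) =
          (((2 : ℝ) ^ (-j) : ℝ) : ℂ) := by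
        rw [← Complex.ofReal_mul, ← Real.rpow_add two_pos]
        congr 1
        rw [show -(j : ℝ) / 2 + -(j : ℝ) / 2 = ((-j : ℤ) : ℝ) by push_cast; ring,
          Real.rpow_intCast]
      unfold fr
      by_cases hx : (2 : ℝ) ^ (-j) * ξ ∈ W
      · simp only [Set.indicator_of_mem hx, map_mul, Complex.conj_ofReal, map_one, mul_one,
          Complex.real_smul]
        rw [← hs]
        ring
      · simp only [Set.indicator_of_notMem hx, mul_zero, smul_zero]
    rw [integral_congr_ae (Filter.Eventually.of_forall h1), integral_smul,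
      Measure.integral_comp_mul_left (fun η => W.indicator (fun η => conj (ch k η) * ch k' η) η),
      integral_indicator hW.1, int_W hW, abs_of_pos (inv_pos.2 hpos), smul_smul,
      mul_inv_cancel₀ hpos.ne', one_smul]
    by_cases h : k = k'
    · subst h; simp
    · rw [if_neg h, if_neg (fun h' => h (Prod.mk.inj h').2)]
  · rw [if_neg (fun h' => hj (Prod.mk.inj h').1)]
    have h1 : ∀ᵐ ξ : ℝ, conj (fr j k (W.indicator fun _ => (1 : ℂ)) ξ) *
        fr j' k' (W.indicator fun _ => (1 : ℂ)) ξ = 0 := by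
      have h0 : ∀ᵐ ξ : ℝ, ξ ≠ 0 := by
        rw [ae_iff]
        simp
      filter_upwards [h0] with ξ hξ
      unfold fr
      by_cases hx : (2 : ℝ) ^ (-j) * ξ ∈ W
      · have hx' : (2 : ℝ) ^ (-j') * ξ ∉ W := fun hx' => hj ((hW.2.2 ξ hξ).unique hx hx')
        simp only [Set.indicator_of_notMem hx', mul_zero]
      · simp only [Set.indicator_of_notMem hx, mul_zero, map_zero, zero_mul]
    rw [integral_congr_ae h1]
    simp

end Pool.Agent.RZW
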