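import Mathlib

/-!
# RZW: Riesz wavelets are dense in L^2(R) (MP_8a7e24_an, S05313): definitions and exact statements
-/

set_option autoImplicit false

open MeasureTheory Set Filter Topology
open scoped ComplexConjugate

namespace Pool.Agent.RZW

/-- `L²(ℝ)` -/
noncomputable abbrev E := Lp ℂ 2 (volume : Measure ℝ)

/-- time side: `2^{j/2} ψ(2^j x - k)` -/
noncomputable def tm (j k : ℤ) (ψ : ℝ → ℂ) : ℝ → ℂ := fun x =>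
  (((2 : ℝ) ^ ((j : ℝ) / 2) : ℝ) : ℂ) * ψ ((2 : ℝ) ^ j * x - (k : ℝ))

/-- the character `e^{-2πi k η}` -/
noncomputable def ch (k : ℤ) (η : ℝ) : ℂ :=
  Complex.exp (-(2 * (Real.pi : ℂ) * Complex.I * (k : ℂ) * (η : ℂ)))

/-- frequency side: `2^{-j/2} e^{-2πi k 2^{-j} ξ} h(2^{-j} ξ)` -/
noncomputable def fr (j k : ℤ) (h : ℝ → ℂ) : ℝ → ℂ := fun ξ =>
  (((2 : ℝ) ^ (-(j : ℝ) / 2) : ℝ) : ℂ) * (ch k ((2 : ℝ) ^ (-j) * ξ) * h ((2 : ℝ) ^ (-j) * ξ))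

/-- `W` is a wavelet set -/
def WSet (W : Set ℝ) : Prop :=
  MeasurableSet W ∧ (∀ ξ : ℝ, ∃! k : ℤ, ξ + (k : ℝ) ∈ W) ∧
    ∀ ξ : ℝ, ξ ≠ 0 → ∃! j : ℤ, (2 : ℝ) ^ (-j) * ξ ∈ W

/-- the union of all `2^j [1, 1 + κ)` -/
def Zk (κ : ℝ) : Set ℝ := {ξ | ∃ j : ℤ, 1 ≤ (2 : ℝ) ^ j * ξ ∧ (2 : ℝ) ^ j * ξ < 1 + κ}

/-! ### abstract Hilbert space lemma -/

/-- ABS: perturbation of an orthonormal basis, block triangular form. -/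
def Stmt_ABS : Prop :=
  ∀ (H : Type) [NormedAddCommGroup H] [InnerProductSpace ℂ H] [CompleteSpace H] (I : Type)
    (e f : I → H) (P : H →L[ℂ] H) (B C δ : ℝ), Orthonormal ℂ e →
    (∀ w : H, (∀ i, (inner ℂ (e i) w : ℂ) = 0) → w = 0) →
    (∀ x y : H, (inner ℂ (P x) y : ℂ) = inner ℂ x (P y)) → (∀ x, P (P x) = P x) →
    (∀ i, P (f i) = f i) → 0 ≤ B →
    (∀ (s : Finset I) (w : H), ∑ i ∈ s, ‖(inner ℂ (f i) w : ℂ)‖ ^ 2 ≤ B * ‖w‖ ^ 2) →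
    B < C ^ 2 → 0 < C → 0 < δ →
    ∀ g : I → H, (∀ i, g i = f i + ((C : ℂ) • P (e i) + (δ : ℂ) • (e i - P (e i)))) →
    (∃ A B' : ℝ, 0 < A ∧ 0 < B' ∧ ∀ (s : Finset I) (c : I → ℂ),
      A * ∑ i ∈ s, ‖c i‖ ^ 2 ≤ ‖∑ i ∈ s, c i • g i‖ ^ 2 ∧
      ‖∑ i ∈ s, c i • g i‖ ^ 2 ≤ B' * ∑ i ∈ s, ‖c i‖ ^ 2) ∧
    ∀ (w : H) (ε : ℝ), 0 < ε → ∃ (s : Finset I) (c : I → ℂ), ‖w - ∑ i ∈ s, c i • g i‖ ^ 2 < ε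

/-! ### Bessel bounds -/

/-- BS1: Bessel inequality for the characters on an interval. -/
def Stmt_BS1 : Prop :=
  ∀ (L : ℕ) (G : ℝ → ℂ), 0 < L → MemLp G 2 volume → (∀ η, G η ≠ 0 → |η| ≤ L) →
    ∀ s : Finset ℤ, ∑ k ∈ s, ‖∫ η, conj (ch k η) * G η‖ ^ 2 ≤ 2 * L * ∫ η, ‖G η‖ ^ 2

/-- BS2 (uses BS1): Bessel bound of the affine system of a bounded function supported in an
annulus. -/
def Stmt_BS2 : Prop :=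
  ∀ (a b Q : ℝ), 0 < a → a < b → 0 ≤ Q → ∃ B : ℝ, 0 ≤ B ∧ ∀ f : ℝ → ℂ, MemLp f 2 volume →
    (∀ ξ, ‖f ξ‖ ≤ Q) → (∀ ξ, f ξ ≠ 0 → a ≤ |ξ| ∧ |ξ| ≤ b) →
    ∀ (s : Finset (ℤ × ℤ)) (w : ℝ → ℂ), MemLp w 2 volume →
      ∑ p ∈ s, ‖∫ ξ, conj (fr p.1 p.2 f ξ) * w ξ‖ ^ 2 ≤ B * ∫ ξ, ‖w ξ‖ ^ 2

/-! ### the orthonormal basis of a wavelet set -/

/-- ONO: orthonormality. -/
def Stmt_ONO : Prop :=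
  ∀ W : Set ℝ, WSet W → volume W = 1 ∧ ∀ p q : ℤ × ℤ,
    ∫ ξ, conj (fr p.1 p.2 (W.indicator fun _ => (1 : ℂ)) ξ) *
      fr q.1 q.2 (W.indicator fun _ => (1 : ℂ)) ξ = if p = q then 1 else 0

/-- ONP: functions on a translation tile whose Fourier coefficients vanish. -/
def Stmt_ONP : Prop :=
  ∀ (W : Set ℝ) (u : ℝ → ℂ), WSet W → MemLp u 2 volume →
    (∀ k : ℤ, ∫ η in W, conj (ch k η) * u η = 0) → ∀ᵐ η ∂(volume.restrict W), u η = 0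

/-- ONC (uses ONP): completeness. -/
def Stmt_ONC : Prop :=
  ∀ (W : Set ℝ) (w : ℝ → ℂ), WSet W → MemLp w 2 volume →
    (∀ p : ℤ × ℤ, ∫ ξ, conj (fr p.1 p.2 (W.indicator fun _ => (1 : ℂ)) ξ) * w ξ = 0) →
    ∀ᵐ ξ, w ξ = 0

/-! ### the wavelet sets -/

/-- WST: wavelet sets concentrated on thin sets. -/
def Stmt_WST : Prop :=
  ∀ κ v : ℝ, 0 < κ → 0 < v → ∃ W₁ W₂ : Set ℝ, MeasurableSet W₁ ∧ MeasurableSet W₂ ∧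
    Disjoint W₁ W₂ ∧ WSet (W₁ ∪ W₂) ∧ volume W₁ ≤ ENNReal.ofReal v ∧ W₂ ⊆ Zk κ

/-! ### approximation -/

/-- APX: truncation. -/
def Stmt_APX : Prop :=
  ∀ f : ℝ → ℂ, MemLp f 2 volume → ∀ ε : ℝ, 0 < ε → ∃ (f₁ : ℝ → ℂ) (a b Q κ : ℝ), 0 < a ∧ a < b ∧
    0 ≤ Q ∧ 0 < κ ∧ MemLp f₁ 2 volume ∧ (∀ ξ, ‖f₁ ξ‖ ≤ Q) ∧
    (∀ ξ, f₁ ξ ≠ 0 → a ≤ |ξ| ∧ |ξ| ≤ b ∧ ξ ∉ Zk κ) ∧ ∫ ξ, ‖f ξ - f₁ ξ‖ ^ 2 < ε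

/-! ### operators -/

/-- MUL: multiplication by an indicator function. -/
def Stmt_MUL : Prop :=
  ∀ (S : Set ℝ) (hS : MeasurableSet S), ∃ P : E →L[ℂ] E,
    (∀ (w : ℝ → ℂ) (hw : MemLp w 2 volume),
      P (hw.toLp w) = (hw.indicator hS).toLp (S.indicator w)) ∧
    (∀ x y : E, (inner ℂ (P x) y : ℂ) = inner ℂ x (P y)) ∧ ∀ x, P (P x) = P x

/-- TMO: the time operators. -/
def Stmt_TMO : Prop :=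
  ∀ j k : ℤ, ∃ T : E →L[ℂ] E, ∀ (w : ℝ → ℂ) (hw : MemLp w 2 volume),
    ∃ h : MemLp (tm j k w) 2 volume, T (hw.toLp w) = h.toLp (tm j k w)

/-- FRO: the frequency operators. -/
def Stmt_FRO : Prop :=
  ∀ j k : ℤ, ∃ T : E →L[ℂ] E, ∀ (w : ℝ → ℂ) (hw : MemLp w 2 volume),
    ∃ h : MemLp (fr j k w) 2 volume, T (hw.toLp w) = h.toLp (fr j k w)

/-- FSW: Schwartz functions. -/
def Stmt_FSW : Prop :=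
  ∀ (j k : ℤ) (φ : SchwartzMap ℝ ℂ), ∃ φ' : SchwartzMap ℝ ℂ,
    (∀ x, φ' x = tm j k (fun x => φ x) x) ∧
    ∀ ξ, (FourierTransform.fourier φ' : SchwartzMap ℝ ℂ) ξ =
      fr j k (fun ξ => (FourierTransform.fourier φ : SchwartzMap ℝ ℂ) ξ) ξ

/-- FOU (uses TMO FRO FSW): the dictionary given by the Fourier transform. -/
def Stmt_FOU : Prop :=
  ∃ F : E ≃ₗᵢ[ℂ] E, ∀ (ψ h : ℝ → ℂ) (hψ : MemLp ψ 2 volume) (hh : MemLp h 2 volume),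
    F (hψ.toLp ψ) = hh.toLp h → ∀ j k : ℤ, ∃ (h1 : MemLp (tm j k ψ) 2 volume)
      (h2 : MemLp (fr j k h) 2 volume), F (h1.toLp (tm j k ψ)) = h2.toLp (fr j k h)

/-- FRQ (uses ABS BS2 ONO ONC WST APX MUL FRO): the theorem on the frequency side. -/
def Stmt_FRQ : Prop :=
  ∀ f : ℝ → ℂ, MemLp f 2 volume → ∀ ε : ℝ, 0 < ε → ∃ h : ℝ → ℂ, MemLp h 2 volume ∧
    ∫ ξ, ‖f ξ - h ξ‖ ^ 2 < ε ∧
    ∀ (g : ℤ × ℤ → E), (∀ p : ℤ × ℤ, ∃ hp : MemLp (fr p.1 p.2 h) 2 volume,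
      g p = hp.toLp (fr p.1 p.2 h)) →
    (∃ A B' : ℝ, 0 < A ∧ 0 < B' ∧ ∀ (s : Finset (ℤ × ℤ)) (c : ℤ × ℤ → ℂ),
      A * ∑ i ∈ s, ‖c i‖ ^ 2 ≤ ‖∑ i ∈ s, c i • g i‖ ^ 2 ∧
      ‖∑ i ∈ s, c i • g i‖ ^ 2 ≤ B' * ∑ i ∈ s, ‖c i‖ ^ 2) ∧
    ∀ (w : E) (ε : ℝ), 0 < ε → ∃ (s : Finset (ℤ × ℤ)) (c : ℤ × ℤ → ℂ),
      ‖w - ∑ i ∈ s, c i • g i‖ ^ 2 < ε

end Pool.Agent.RZW
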