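import Pool.Agent.RZW.Stmts

/-!
# RZW, module WST: wavelet sets concentrated on thin sets
-/

set_option autoImplicit false

open MeasureTheory Set Filter Topology

namespace Pool.Agent.RZW.WST

lemma step {x : ℝ} (hx : 0 < x) {i j : ℤ} (h : i < j) :
    (2 : ℝ) ^ (-j) * x ≤ ((2 : ℝ) ^ (-i) * x) / 2 := by
  have h1 : (2 : ℝ) ^ (-j) ≤ (2 : ℝ) ^ (-i - 1) :=
    zpow_le_zpow_right₀ (by norm_num) (by omega)
  rw [zpow_sub_one₀ (by norm_num)] at h1
  have h2 := mul_le_mul_of_nonneg_right h1 hx.le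
  calc (2 : ℝ) ^ (-j) * x ≤ (2 : ℝ) ^ (-i) * 2⁻¹ * x := h2
    _ = _ := by ring

lemma dyad {c x : ℝ} (hc : 0 < c) (hx : 0 < x) :
    ∃ j : ℤ, (c / 2 ≤ (2 : ℝ) ^ (-j) * x ∧ (2 : ℝ) ^ (-j) * x < c) ∧
      ∀ i : ℤ, c / 2 ≤ (2 : ℝ) ^ (-i) * x → (2 : ℝ) ^ (-i) * x < c → i = j := by
  obtain ⟨j, hj⟩ := exists_mem_Ico_zpow (x := 2 * x / c) (y := (2 : ℝ)) (by positivity)
    (by norm_num)
  have hp : (0 : ℝ) < (2 : ℝ) ^ (-j) := by positivity
  have e : (2 : ℝ) ^ (-j) * (2 : ℝ) ^ j = 1 := by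
    rw [← zpow_add₀ (by norm_num)]
    simp
  have h1 : 1 ≤ (2 : ℝ) ^ (-j) * (2 * x / c) := by
    rw [← e]
    exact mul_le_mul_of_nonneg_left hj.1 hp.le
  have h2 : (2 : ℝ) ^ (-j) * (2 * x / c) < 2 := by
    have := mul_lt_mul_of_pos_left hj.2 hp
    rwa [zpow_add_one₀ (by norm_num), ← mul_assoc, e, one_mul] at this
  have h3 : (2 : ℝ) ^ (-j) * (2 * x / c) = (2 : ℝ) ^ (-j) * x * (2 / c) := by ring
  rw [h3] at h1 h2
  have h4 : c / 2 ≤ (2 : ℝ) ^ (-j) * x := by
    have := mul_le_mul_of_nonneg_right h1 (show 0 ≤ c / 2 by positivity)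
    rw [one_mul, mul_assoc, show 2 / c * (c / 2) = 1 by field_simp, mul_one] at this
    exact this
  have h5 : (2 : ℝ) ^ (-j) * x < c := by
    have := mul_lt_mul_of_pos_right h2 (show 0 < c / 2 by positivity)
    rw [mul_assoc, show 2 / c * (c / 2) = 1 by field_simp, mul_one] at this
    linarith
  refine ⟨j, ⟨h4, h5⟩, ?_⟩
  intro i h6 h7
  rcases lt_trichotomy i j with h | h | h
  · have := step hx h
    linarith
  · exact h
  · have := step hx h
    linarith

lemma dyad' {c x : ℝ} (hc : 0 < c) (hx : 0 < x) :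
    ∃ j : ℤ, (c / 2 < (2 : ℝ) ^ (-j) * x ∧ (2 : ℝ) ^ (-j) * x ≤ c) ∧
      ∀ i : ℤ, c / 2 < (2 : ℝ) ^ (-i) * x → (2 : ℝ) ^ (-i) * x ≤ c → i = j := by
  obtain ⟨j, hj⟩ := exists_mem_Ioc_zpow (x := 2 * x / c) (y := (2 : ℝ)) (by positivity)
    (by norm_num)
  have hp : (0 : ℝ) < (2 : ℝ) ^ (-j) := by positivity
  have e : (2 : ℝ) ^ (-j) * (2 : ℝ) ^ j = 1 := by
    rw [← zpow_add₀ (by norm_num)]
    simp
  have h1 : 1 < (2 : ℝ) ^ (-j) * (2 * x / c) := by
    rw [← e]
    exact mul_lt_mul_of_pos_left hj.1 hp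
  have h2 : (2 : ℝ) ^ (-j) * (2 * x / c) ≤ 2 := by
    have := mul_le_mul_of_nonneg_left hj.2 hp.le
    rwa [zpow_add_one₀ (by norm_num), ← mul_assoc, e, one_mul] at this
  have h3 : (2 : ℝ) ^ (-j) * (2 * x / c) = (2 : ℝ) ^ (-j) * x * (2 / c) := by ring
  rw [h3] at h1 h2
  have h4 : c / 2 < (2 : ℝ) ^ (-j) * x := by
    have := mul_lt_mul_of_pos_right h1 (show 0 < c / 2 by positivity)
    rw [one_mul, mul_assoc, show 2 / c * (c / 2) = 1 by field_simp, mul_one] at this
    exact this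
  have h5 : (2 : ℝ) ^ (-j) * x ≤ c := by
    have := mul_le_mul_of_nonneg_right h2 (show 0 ≤ c / 2 by positivity)
    rw [mul_assoc, show 2 / c * (c / 2) = 1 by field_simp, mul_one] at this
    linarith
  refine ⟨j, ⟨h4, h5⟩, ?_⟩
  intro i h6 h7
  rcases lt_trichotomy i j with h | h | h
  · have := step hx h
    linarith
  · exact h
  · have := step hx h
    linarith

lemma tile_add (W : Set ℝ) (c : ℝ) (n : ℝ → ℤ)
    (h : ∀ x, x ∈ W ↔ ∃ y, c ≤ y ∧ y < c + 1 ∧ x = y + n y) (ξ : ℝ) :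
    ∃! k : ℤ, ξ + (k : ℝ) ∈ W := by
  obtain ⟨k₀, h0, hu⟩ := existsUnique_add_zsmul_mem_Ico (one_pos (α := ℝ)) ξ c
  have h0' : c ≤ ξ + k₀ ∧ ξ + k₀ < c + 1 := by simpa using h0
  refine ⟨k₀ + n (ξ + k₀), ?_, ?_⟩
  · show ξ + ((k₀ + n (ξ + k₀) : ℤ) : ℝ) ∈ W
    rw [h]
    refine ⟨ξ + k₀, h0'.1, h0'.2, ?_⟩
    push_cast
    ring
  · intro k hk
    obtain ⟨y, h1, h2, h3⟩ := (h _).1 hk
    have h4 : y = ξ + ((k - n y : ℤ) : ℝ) := by
      push_cast
      linarith
    have h5 : k - n y = k₀ := by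
      apply hu
      show ξ + (k - n y) • (1 : ℝ) ∈ Ico c (c + 1)
      rw [zsmul_one, ← h4]
      exact ⟨h1, h2⟩
    rw [h5] at h4
    rw [← h4]
    omega

lemma tile_mul (W : Set ℝ) (c a : ℝ) (hc : 0 < c) (ha : 0 < a) (n : ℝ → ℤ)
    (h : ∀ x, 0 < x → (x ∈ W ↔ ∃ y, c / 2 ≤ y ∧ y < c ∧ x = (2 : ℝ) ^ (n y) * y))
    (h' : ∀ x, x < 0 → (x ∈ W ↔ -a ≤ x ∧ x < -a / 2)) (ξ : ℝ) (hξ : ξ ≠ 0) :
    ∃! j : ℤ, (2 : ℝ) ^ (-j) * ξ ∈ W := by
  rcases lt_or_gt_of_ne hξ with hneg | hpos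
  · obtain ⟨j, ⟨h1, h2⟩, hu⟩ := dyad' ha (neg_pos.2 hneg)
    have key : ∀ i : ℤ, (2 : ℝ) ^ (-i) * ξ < 0 := fun i =>
      mul_neg_of_pos_of_neg (by positivity) hneg
    refine ⟨j, ?_, ?_⟩
    · show (2 : ℝ) ^ (-j) * ξ ∈ W
      rw [h' _ (key j)]
      rw [mul_neg] at h1 h2
      constructor <;> linarith
    · intro i hi
      have := (h' _ (key i)).1 hi
      apply hu i
      · rw [mul_neg]
        linarith
      · rw [mul_neg]
        linarith
  · obtain ⟨j, ⟨h1, h2⟩, hu⟩ := dyad hc hpos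
    have key : ∀ i : ℤ, 0 < (2 : ℝ) ^ (-i) * ξ := fun i => by positivity
    refine ⟨j - n ((2 : ℝ) ^ (-j) * ξ), ?_, ?_⟩
    · show (2 : ℝ) ^ (-(j - n ((2 : ℝ) ^ (-j) * ξ))) * ξ ∈ W
      rw [h _ (key _)]
      refine ⟨_, h1, h2, ?_⟩
      rw [← mul_assoc, ← zpow_add₀ (by norm_num)]
      congr 2
      ring
    · intro i hi
      obtain ⟨y, h3, h4, h5⟩ := (h _ (key i)).1 hi
      have h6 : y = (2 : ℝ) ^ (-(i + n y)) * ξ := by
        have e : (2 : ℝ) ^ (-(n y)) * (2 : ℝ) ^ (n y) = 1 := by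
          rw [← zpow_add₀ (by norm_num)]
          simp
        calc y = (2 : ℝ) ^ (-(n y)) * ((2 : ℝ) ^ (n y) * y) := by rw [← mul_assoc, e, one_mul]
          _ = (2 : ℝ) ^ (-(n y)) * ((2 : ℝ) ^ (-i) * ξ) := by rw [← h5]
          _ = _ := by
            rw [← mul_assoc, ← zpow_add₀ (by norm_num)]
            congr 2
            ring
      have h7 : i + n y = j := by
        apply hu
        · rw [← h6]
          exact h3
        · rw [← h6]
          exact h4
      rw [h7] at h6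
      rw [← h6]
      omega

/-- the construction with all the identities as hypotheses -/
lemma build (κ v α β β₂ γ k₁ : ℝ) (K₁ K₂ : ℤ) (r q m : ℕ) (hκ : 0 < κ) (hα : 0 < α) (hβ : 0 < β)
    (hβ₂ : 0 < β₂) (hab : α + β < 1) (h2 : β₂ < β) (hr : k₁ = 2 ^ r) (hκr : 1 ≤ κ * k₁)
    (hK₁ : (K₁ : ℝ) = k₁) (hK₂ : (K₂ : ℝ) = 2 ^ q * (k₁ + 1) - 1)
    (E1 : (2 : ℝ) ^ m * (β / 2) = k₁ + β) (E2 : (2 : ℝ) ^ q * α = 1 + α / 2)
    (E3 : (2 : ℝ) ^ (m + q) * β₂ = K₂ + β₂) (E4 : (2 : ℝ) ^ m * γ = k₁ + 1 - α)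
    (hv : α / 2 + β ≤ v) :
    ∃ W₁ W₂ : Set ℝ, MeasurableSet W₁ ∧ MeasurableSet W₂ ∧
    Disjoint W₁ W₂ ∧ WSet (W₁ ∪ W₂) ∧ volume W₁ ≤ ENNReal.ofReal v ∧ W₂ ⊆ Zk κ := by
  have hk1 : 1 ≤ k₁ := by
    rw [hr]
    exact one_le_pow₀ (by norm_num)
  have hQ : 1 ≤ (2 : ℝ) ^ q := one_le_pow₀ (by norm_num)
  have hQ1 : (2 : ℝ) ^ q ≥ 1 + α / 2 := by
    have : (2 : ℝ) ^ q * α ≤ (2 : ℝ) ^ q * 1 := by
      apply mul_le_mul_of_nonneg_left _ (by positivity)
      linarith
    linarith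
  have hM : 0 < (2 : ℝ) ^ m := by positivity
  have hMQ : 0 < (2 : ℝ) ^ (m + q) := by positivity
  have E5 : (2 : ℝ) ^ (m + q) * γ = K₂ - α / 2 := by
    rw [hK₂, pow_add, mul_right_comm, E4]
    linear_combination -E2
  have hK2 : (K₂ : ℝ) ≥ k₁ + 1 - 1 + 0 := by
    rw [hK₂]
    nlinarith
  have g1 : β / 2 < γ := by
    by_contra hc
    push Not at hc
    have := mul_le_mul_of_nonneg_left hc hM.le
    linarith
  have g2 : γ < β₂ := by
    by_contra hc
    push Not at hc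
    have := mul_le_mul_of_nonneg_left hc hMQ.le
    linarith
  have hmeas1 : MeasurableSet (Ico (-α) (-α / 2) ∪ Ico β₂ β) :=
    measurableSet_Ico.union measurableSet_Ico
  have hmeas2 : MeasurableSet (Ico (k₁ + β) (k₁ + 1 - α) ∪ Ico (K₂ - α / 2) (K₂ + β₂)) :=
    measurableSet_Ico.union measurableSet_Ico
  refine ⟨Ico (-α) (-α / 2) ∪ Ico β₂ β, Ico (k₁ + β) (k₁ + 1 - α) ∪
    Ico (K₂ - α / 2) (K₂ + β₂), hmeas1, hmeas2, ?_, ⟨hmeas1.union hmeas2, ?_, ?_⟩, ?_, ?_⟩
  · rw [Set.disjoint_left]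
    rintro x (hx | hx) (hy | hy) <;> rw [mem_Ico] at hx hy <;> linarith [hx.1, hx.2, hy.1, hy.2]
  · -- translations
    apply tile_add _ (-α) (fun y => if y < -α / 2 then 0 else if y < β₂ then K₂ else
      if y < β then 0 else K₁)
    intro x
    constructor
    · rintro ((hx | hx) | (hx | hx)) <;> rw [mem_Ico] at hx
      · refine ⟨x, by linarith [hx.1], by linarith [hx.2], ?_⟩
        rw [if_pos hx.2]
        simp
      · refine ⟨x, by linarith [hx.1], by linarith [hx.2], ?_⟩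
        rw [if_neg (by linarith [hx.1]), if_neg (by linarith [hx.1]), if_pos hx.2]
        simp
      · refine ⟨x - K₁, by linarith [hx.1], by linarith [hx.2], ?_⟩
        rw [if_neg (by linarith [hx.1]), if_neg (by linarith [hx.1]), if_neg (by linarith [hx.1])]
        ring
      · refine ⟨x - K₂, by linarith [hx.1], by linarith [hx.2], ?_⟩
        rw [if_neg (by linarith [hx.1]), if_pos (by linarith [hx.2])]
        ring
    · rintro ⟨y, h3, h4, rfl⟩
      by_cases c1 : y < -α / 2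
      · left; left
        rw [if_pos c1, mem_Ico]
        constructor <;> push_cast <;> linarith
      by_cases c2 : y < β₂
      · right; right
        rw [if_neg c1, if_pos c2, mem_Ico]
        push Not at c1
        constructor <;> linarith
      by_cases c3 : y < β
      · left; right
        rw [if_neg c1, if_neg c2, if_pos c3, mem_Ico]
        push Not at c2
        constructor <;> push_cast <;> linarith
      · right; left
        rw [if_neg c1, if_neg c2, if_neg c3, mem_Ico]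
        push Not at c3
        constructor <;> linarith
  · -- dilations
    apply tile_mul _ β α hβ hα (fun y => if y < γ then (m : ℤ) else if y < β₂ then ((m + q : ℕ) : ℤ)
      else 0)
    · intro x hx0
      constructor
      · rintro ((hx | hx) | (hx | hx)) <;> rw [mem_Ico] at hx
        · exfalso
          linarith [hx.2]
        · refine ⟨x, by linarith [hx.1], by linarith [hx.2], ?_⟩
          rw [if_neg (by linarith [hx.1]), if_neg (by linarith [hx.1])]
          simp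
        · have e : (2 : ℝ) ^ m * (x / 2 ^ m) = x := by field_simp
          have a1 : β / 2 ≤ x / 2 ^ m := by
            by_contra hc
            push Not at hc
            have := mul_lt_mul_of_pos_left hc hM
            linarith [hx.1]
          have a2 : x / 2 ^ m < γ := by
            by_contra hc
            push Not at hc
            have := mul_le_mul_of_nonneg_left hc hM.le
            linarith [hx.2]
          refine ⟨x / 2 ^ m, a1, by linarith, ?_⟩
          rw [if_pos a2, zpow_natCast, e]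
        · have e : (2 : ℝ) ^ (m + q) * (x / 2 ^ (m + q)) = x := by field_simp
          have a1 : γ ≤ x / 2 ^ (m + q) := by
            by_contra hc
            push Not at hc
            have := mul_lt_mul_of_pos_left hc hMQ
            linarith [hx.1]
          have a2 : x / 2 ^ (m + q) < β₂ := by
            by_contra hc
            push Not at hc
            have := mul_le_mul_of_nonneg_left hc hMQ.le
            linarith [hx.2]
          refine ⟨x / 2 ^ (m + q), by linarith, by linarith, ?_⟩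
          rw [if_neg (by linarith), if_pos a2, zpow_natCast, e]
      · rintro ⟨y, h3, h4, rfl⟩
        by_cases c1 : y < γ
        · right; left
          rw [if_pos c1, zpow_natCast, mem_Ico]
          have b1 := mul_le_mul_of_nonneg_left h3 hM.le
          have b2 := mul_lt_mul_of_pos_left c1 hM
          constructor <;> linarith
        by_cases c2 : y < β₂
        · right; right
          rw [if_neg c1, if_pos c2, zpow_natCast, mem_Ico]
          push Not at c1
          have b1 := mul_le_mul_of_nonneg_left c1 hMQ.le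
          have b2 := mul_lt_mul_of_pos_left c2 hMQ
          constructor <;> linarith
        · left; right
          rw [if_neg c1, if_neg c2, zpow_zero, one_mul, mem_Ico]
          push Not at c2
          exact ⟨c2, h4⟩
    · intro x hx0
      constructor
      · rintro ((hx | hx) | (hx | hx)) <;> rw [mem_Ico] at hx
        · exact hx
        · exfalso; linarith [hx.1]
        · exfalso; linarith [hx.1]
        · exfalso; linarith [hx.1]
      · intro hx
        left; left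
        exact hx
  · calc volume (Ico (-α) (-α / 2) ∪ Ico β₂ β) ≤ volume (Ico (-α) (-α / 2)) +
          volume (Ico β₂ β) := measure_union_le _ _
      _ = ENNReal.ofReal (-α / 2 - -α) + ENNReal.ofReal (β - β₂) := by
        rw [Real.volume_Ico, Real.volume_Ico]
      _ = ENNReal.ofReal ((-α / 2 - -α) + (β - β₂)) := by
        rw [ENNReal.ofReal_add (by linarith) (by linarith)]
      _ ≤ ENNReal.ofReal v := ENNReal.ofReal_le_ofReal (by linarith)
  · have ek : (2 : ℝ) ^ (-(r : ℤ)) * k₁ = 1 := by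
      rw [hr, zpow_neg, zpow_natCast]
      field_simp
    have eq' : (2 : ℝ) ^ (-((r + q : ℕ) : ℤ)) * (2 ^ q * k₁) = 1 := by
      rw [hr, zpow_neg, zpow_natCast, pow_add]
      field_simp
    rintro x (hx | hx) <;> rw [mem_Ico] at hx
    · refine ⟨-(r : ℤ), ?_, ?_⟩
      · rw [← ek]
        apply mul_le_mul_of_nonneg_left _ (by positivity)
        linarith [hx.1]
      · have h3 : x < k₁ * (1 + κ) := by nlinarith [hx.2]
        have := mul_lt_mul_of_pos_left h3 (show (0 : ℝ) < 2 ^ (-(r : ℤ)) by positivity)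
        rwa [← mul_assoc, ek, one_mul] at this
    · refine ⟨-((r + q : ℕ) : ℤ), ?_, ?_⟩
      · rw [← eq']
        apply mul_le_mul_of_nonneg_left _ (by positivity)
        rw [hK₂] at hx
        linarith [hx.1]
      · have h3 : x < (2 ^ q * k₁) * (1 + κ) := by
          rw [hK₂] at hx
          have : (2 : ℝ) ^ q * 1 ≤ 2 ^ q * (κ * k₁) := mul_le_mul_of_nonneg_left hκr (by positivity)
          nlinarith [hx.2]
        have := mul_lt_mul_of_pos_left h3 (show (0 : ℝ) < 2 ^ (-((r + q : ℕ) : ℤ)) by positivity)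
        rwa [← mul_assoc, eq', one_mul] at this

end Pool.Agent.RZW.WST

namespace Pool.Agent.RZW

open WST in
theorem stmt_WST : Stmt_WST := by
  intro κ v hκ hv
  obtain ⟨r, hr⟩ := pow_unbounded_of_one_lt (1 / κ) (one_lt_two (α := ℝ))
  obtain ⟨q, hq⟩ := pow_unbounded_of_one_lt (max 4 (2 / v)) (one_lt_two (α := ℝ))
  have hq4 : (4 : ℝ) < 2 ^ q := lt_of_le_of_lt (le_max_left _ _) hq
  have hqv : 2 / v < (2 : ℝ) ^ q := lt_of_le_of_lt (le_max_right _ _) hq
  have hX : (1 : ℝ) ≤ 2 ^ r := one_le_pow₀ (by norm_num)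
  -- m = r + q + 2
  have hqv' : 2 < v * (2 : ℝ) ^ q := by
    rw [div_lt_iff₀ hv] at hqv
    linarith
  have hκr : 1 ≤ κ * (2 : ℝ) ^ r := by
    rw [div_lt_iff₀ hκ] at hr
    linarith
  set X : ℝ := 2 ^ r with hXd
  set Y : ℝ := 2 ^ q with hYd
  -- Z = 2^(m-1) = 2 X Y
  have hZ : (0 : ℝ) < 2 * X * Y - 1 := by nlinarith
  have hα0 : (0 : ℝ) < 2 * Y - 1 := by linarith
  have hMQ : (0 : ℝ) < 4 * X * Y * Y - 1 := by nlinarith
  have hXY : X * 4 < X * Y := by nlinarith
  have hm : (2 : ℝ) ^ (r + q + 2) = 4 * X * Y := by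
    rw [pow_add, pow_add]
    ring
  have hmq : (2 : ℝ) ^ (r + q + 2 + q) = 4 * X * Y * Y := by
    rw [pow_add, hm]
  refine build κ v (2 / (2 * Y - 1)) (X / (2 * X * Y - 1)) ((Y * (X + 1) - 1) / (4 * X * Y * Y - 1))
    ((X + 1 - 2 / (2 * Y - 1)) / (4 * X * Y)) X (2 ^ r) (2 ^ q * (2 ^ r + 1) - 1) r q (r + q + 2)
    hκ (by positivity) (by positivity) ?_ ?_ ?_ rfl hκr ?_ ?_ ?_ ?_ ?_ ?_ ?_
  · apply div_pos _ hMQ
    nlinarith
  · have h1 : 2 / (2 * Y - 1) < 1 / 2 := by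
      rw [div_lt_div_iff₀ hα0 (by norm_num)]
      linarith
    have h2 : X / (2 * X * Y - 1) < 1 / 2 := by
      rw [div_lt_div_iff₀ hZ (by norm_num)]
      nlinarith
    linarith
  · rw [div_lt_div_iff₀ hMQ hZ]
    nlinarith [mul_pos (show 0 < X by linarith) (show 0 < Y by linarith), mul_nonneg (show 0 ≤ X - 1 by linarith) (show 0 ≤ Y - 4 by linarith), sq_nonneg X, mul_pos (mul_pos (show 0 < X by linarith) (show 0 < Y by linarith)) (show 0 < Y by linarith), mul_nonneg (mul_nonneg (mul_nonneg (show 0 ≤ X - 1 by linarith) (show 0 ≤ X by linarith)) (show 0 ≤ Y by linarith)) (show 0 ≤ Y by linarith)]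
  · push_cast
    rfl
  · push_cast
    rfl
  · rw [hm]
    have hZ' := hZ.ne'
    rw [← sub_eq_zero]
    have : 4 * X * Y * (X / (2 * X * Y - 1) / 2) - (X + X / (2 * X * Y - 1)) =
        X / (2 * X * Y - 1) * (2 * X * Y - 1) - X := by ring
    rw [this, div_mul_cancel₀ _ hZ', sub_self]
  · rw [← hYd]
    have hZ' := hα0.ne'
    rw [← sub_eq_zero]
    have : Y * (2 / (2 * Y - 1)) - (1 + 2 / (2 * Y - 1) / 2) =
        1 / (2 * Y - 1) * (2 * Y - 1) - 1 := by ring
    rw [this, div_mul_cancel₀ _ hZ', sub_self]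
  · rw [hmq]
    push_cast
    rw [← hXd, ← hYd]
    have hZ' := hMQ.ne'
    rw [← sub_eq_zero]
    have : 4 * X * Y * Y * ((Y * (X + 1) - 1) / (4 * X * Y * Y - 1)) -
        (Y * (X + 1) - 1 + (Y * (X + 1) - 1) / (4 * X * Y * Y - 1)) =
        (Y * (X + 1) - 1) / (4 * X * Y * Y - 1) * (4 * X * Y * Y - 1) - (Y * (X + 1) - 1) := by ring
    rw [this, div_mul_cancel₀ _ hZ', sub_self]
  · rw [hm]
    field_simp
  · have h1 : 2 / (2 * Y - 1) / 2 ≤ v / 2 := by
      rw [div_div, div_le_div_iff₀ (by positivity) (by norm_num)]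
      nlinarith
    have h2 : X / (2 * X * Y - 1) ≤ v / 2 := by
      rw [div_le_div_iff₀ hZ (by norm_num)]
      nlinarith
    linarith

end Pool.Agent.RZW
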